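import Pool.Agent.Y272.LC.Stm

set_option autoImplicit false

/-!
# Rays whose orbits stay in the sector of the slit land at the same point
-/

open Complex Filter Topology Metric Set MeasureTheory

namespace Pool.Agent.Y288.LC.Col

open Pool.Agent.H712R2 Pool.Agent.H713R2 Pool.Agent.H713R2.AR Pool.Agent.W677.Mar Pool.Agent.Y272.TY
open Pool.Agent.Y272.LC

theorem zt_re (s t : ℝ) : (zt s t).re = s := by
  simp [zt]

theorem zt_add (s t : ℝ) (m : ℤ) :
    zt s (t + m) = zt s t + m * (((2 * Real.pi : ℝ) : ℂ) * I) := by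
  unfold zt
  push_cast
  ring

theorem per_nat {d : ℕ} {Φ : ℂ → ℂ → ℂ} (h : IsBott d Φ) (c ζ : ℂ) (hζ : green d c 0 < ζ.re)
    (n : ℕ) : Φ c (ζ + n * (((2 * Real.pi : ℝ) : ℂ) * I)) = Φ c ζ := by
  induction n with
  | zero => simp
  | succ n ih =>
    have h1 : green d c 0 < (ζ + n * (((2 * Real.pi : ℝ) : ℂ) * I)).re := by
      have : (ζ + n * (((2 * Real.pi : ℝ) : ℂ) * I)).re = ζ.re := by simp
      rw [this]; exact hζ
    have h2 := h.per c _ h1
    rw [ih] at h2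
    rw [← h2]
    congr 1
    push_cast
    ring

theorem per_int {d : ℕ} {Φ : ℂ → ℂ → ℂ} (h : IsBott d Φ) (c ζ : ℂ) (hζ : green d c 0 < ζ.re)
    (m : ℤ) : Φ c (ζ + m * (((2 * Real.pi : ℝ) : ℂ) * I)) = Φ c ζ := by
  obtain ⟨n, rfl | rfl⟩ := m.eq_nat_or_neg
  · have := per_nat h c ζ hζ n
    rw [← this]
    push_cast
    rfl
  · have h1 : green d c 0 < (ζ + ((-(n : ℤ) : ℤ) : ℂ) * (((2 * Real.pi : ℝ) : ℂ) * I)).re := by
      have : (ζ + ((-(n : ℤ) : ℤ) : ℂ) * (((2 * Real.pi : ℝ) : ℂ) * I)).re = ζ.re := by simp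
      rw [this]; exact hζ
    have h2 := per_nat h c _ h1 n
    rw [← h2]
    congr 1
    push_cast
    ring

theorem per_zt {d : ℕ} {Φ : ℂ → ℂ → ℂ} (h : IsBott d Φ) (c : ℂ) {s : ℝ} (hs : green d c 0 < s)
    (t : ℝ) (m : ℤ) : Φ c (zt s (t + m)) = Φ c (zt s t) := by
  rw [zt_add]
  exact per_int h c _ (by rw [zt_re]; exact hs) m

/-- one step of a ray -/
theorem step (hC : St_Cb) {d : ℕ} {Φ : ℂ → ℂ → ℂ} (hd : 2 ≤ d) (hΦ : IsBott d Φ) {c : ℂ}
    {θ G : ℝ} (hc : Esc d Φ c θ G) {g : ℤ → ℂ → ℂ} (hg : IsBr d Φ c θ G g) (i : ℤ) (x : ℝ)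
    (X : ℕ → ℝ → ℂ)
    (hx : ∀ k : ℕ, ∃ m : ℤ, (θ + i) / d < (d : ℝ) ^ k * x - m ∧
      (d : ℝ) ^ k * x - m < (θ + i + 1) / d)
    (hcont : ∀ k, ContinuousOn (X k) (Ici 0))
    (hray : ∀ (k : ℕ) (s : ℝ), G / d < s → X k s = Φ c (zt s ((d : ℝ) ^ k * x)))
    (hgrn : ∀ (k : ℕ) (s : ℝ), 0 ≤ s → green d c (X k s) = s ∧ fc d c (X k s) = X (k + 1) (d * s))
    (k : ℕ) (s : ℝ) (hs : 0 ≤ s) : g i (X (k + 1) (d * s)) = X k s := by
  have hdR : (0 : ℝ) < d := by exact_mod_cast (by omega : 0 < d)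
  obtain ⟨m, hm1, hm2⟩ := hx k
  refine (hC d Φ hd hΦ c θ G hc g hg ((d : ℝ) ^ k * x - m) i (X k) (X (k + 1)) ?_ ?_ (hcont k)
    (hcont (k + 1)) ?_ ?_ s hs).2
  · rw [div_lt_iff₀ hdR] at hm1
    linarith
  · rw [lt_div_iff₀ hdR] at hm2
    linarith
  · intro u hu
    have hu' : green d c 0 < u := by rw [hc.crit]; exact hu
    constructor
    · rw [hray k u hu, ← per_zt hΦ c hu' ((d : ℝ) ^ k * x - m) m]
      congr 2
      ring
    · rw [hray (k + 1) u hu, ← per_zt hΦ c hu' ((d : ℝ) * ((d : ℝ) ^ k * x - m)) (d * m)]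
      congr 2
      push_cast
      ring
  · intro u hu
    exact ⟨(hgrn k u hu).1, (hgrn (k + 1) u hu).1, (hgrn k u hu).2⟩

/-- all steps of a ray -/
theorem steps {d : ℕ} (gi : ℂ → ℂ) (X : ℕ → ℝ → ℂ)
    (h : ∀ (k : ℕ) (s : ℝ), 0 ≤ s → gi (X (k + 1) (d * s)) = X k s) (k : ℕ) (s : ℝ)
    (hs : 0 ≤ s) : gi^[k] (X k ((d : ℝ) ^ k * s)) = X 0 s := by
  induction k with
  | zero => simp
  | succ k ih =>
    rw [Function.iterate_succ_apply, pow_succ', mul_assoc,
      h k ((d : ℝ) ^ k * s) (by positivity), ih]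

theorem t (hG : St_Grn) (hB : St_Br) (hC : St_Cb) (hE : St_Eh) : St_Col := by
  intro d Φ hd hΦ c θ G hc i x y X Y hx hy hcont hray hgrn
  have hdR : (2 : ℝ) ≤ d := by exact_mod_cast hd
  have hd0 : (0 : ℝ) < d := by linarith
  obtain ⟨-, hfun, -, -⟩ := hG d hd
  obtain ⟨hcl, g, hg⟩ := hB d Φ hd hΦ c θ G hc
  have hG0 := hc.G0
  have hGd : G / d < G := by
    rw [div_lt_iff₀ hd0]
    nlinarith
  set W : Set ℂ := {z | green d c z < G} with hW
  have hWo : IsOpen W := isOpen_lt (continuous_green hd c) continuous_const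
  have hWsl : ∀ z ∈ W, z ∉ Sl Φ c θ G := by
    rintro z hz ⟨s, hs, rfl⟩
    have h1 : green d c (Φ c (zt s θ)) = (zt s θ).re := by
      apply hΦ.grn
      rw [zt_re, hc.crit]
      linarith
    rw [zt_re] at h1
    have h2 : green d c (Φ c (zt s θ)) < G := hz
    linarith
  have hlev : ∀ z ∈ W, green d c (g i z) < G / d := by
    intro z hz
    have h1 := hfun c (g i z)
    rw [hg.inv i z (hWsl z hz)] at h1
    have h2 : green d c z < G := hz
    rw [lt_div_iff₀ hd0]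
    linarith
  have hmaps : MapsTo (g i) W W := fun z hz => (hlev z hz).trans hGd
  have hdiff : DifferentiableOn ℂ (g i) W := (hg.hol i).mono fun z hz => hWsl z hz
  obtain ⟨δ, hδ, hδW⟩ := (isCompact_GLev hd c (G / d)).exists_thickening_subset_open hWo
    (fun z hz => lt_of_le_of_lt hz hGd)
  have hball : ∀ z ∈ W, ball (g i z) δ ⊆ W := fun z hz =>
    (ball_subset_thickening (show g i z ∈ GLev d c (G / d) from (hlev z hz).le) δ).trans hδW
  obtain ⟨D0, hD0⟩ := Metric.isBounded_iff.mp (isCompact_GLev hd c G).isBounded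
  set D : ℝ := max D0 1 with hD
  have hDpos : 0 < D := lt_of_lt_of_le one_pos (le_max_right _ _)
  have hdiam : ∀ z ∈ W, ∀ w ∈ W, ‖z - w‖ ≤ D := by
    intro z hz w hw
    have hz' : green d c z < G := hz
    have hw' : green d c w < G := hw
    have hz2 : z ∈ GLev d c G := hz'.le
    have hw2 : w ∈ GLev d c G := hw'.le
    rw [← dist_eq_norm]
    exact (hD0 hz2 hw2).trans (le_max_left _ _)
  have hEH := hE W (g i) δ D hWo hdiff hmaps hδ hDpos hdiam hball
  -- the level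
  set u : ℝ := (G / d + G) / 2 with hu
  have hu1 : G / d < u := by rw [hu]; linarith
  have hu2 : u < G := by rw [hu]; linarith
  have hu0 : 0 < u := by
    have : 0 < G / d := by positivity
    linarith
  have hu3 : green d c 0 < u := by rw [hc.crit]; exact hu1
  obtain ⟨ρ, hρ, hρW⟩ := (isCompact_GLev hd c u).exists_thickening_subset_open hWo
    (fun z hz => lt_of_le_of_lt hz hu2)
  set p : ℝ → ℂ := fun t => Φ c (zt u t) with hp
  have hpg : ∀ t, green d c (p t) = u := by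
    intro t
    have h1 := hΦ.grn c (zt u t) (by rw [zt_re]; exact hu3)
    rw [zt_re] at h1
    exact h1
  have hpW : ∀ t, p t ∈ W := fun t => by
    change green d c (p t) < G
    rw [hpg t]; exact hu2
  have hpball : ∀ t, ball (p t) ρ ⊆ W := fun t =>
    (ball_subset_thickening (show p t ∈ GLev d c u from (hpg t).le) ρ).trans hρW
  -- the derivative of the curve
  set U : Set ℂ := {ζ | green d c 0 < ζ.re} with hU
  have hUo : IsOpen U := isOpen_lt continuous_const Complex.continuous_re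
  have hzU : ∀ t, zt u t ∈ U := fun t => by
    change green d c 0 < (zt u t).re
    rw [zt_re]; exact hu3
  have hΦd : DifferentiableOn ℂ (Φ c) U := hΦ.hol c
  have hzd : ∀ t : ℝ, HasDerivAt (fun t : ℝ => zt u t) (((2 * Real.pi : ℝ) : ℂ) * I) t := by
    intro t
    have h1 : HasDerivAt (fun t : ℝ => ((2 * Real.pi * t : ℝ) : ℂ)) ((2 * Real.pi : ℝ) : ℂ) t := by
      have h2 : HasDerivAt (fun t : ℝ => 2 * Real.pi * t) (2 * Real.pi) t := by
        simpa using (hasDerivAt_id t).const_mul (2 * Real.pi)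
      exact h2.ofReal_comp
    exact (h1.mul_const I).const_add (u : ℂ)
  have hpd : ∀ t : ℝ, HasDerivAt p (deriv (Φ c) (zt u t) * (((2 * Real.pi : ℝ) : ℂ) * I)) t := by
    intro t
    have h1 : HasDerivAt (Φ c) (deriv (Φ c) (zt u t)) (zt u t) :=
      (hΦd.differentiableAt (hUo.mem_nhds (hzU t))).hasDerivAt
    exact HasDerivAt.comp (h₂ := Φ c) (h := fun t : ℝ => zt u t) t h1 (hzd t)
  have hzc : Continuous fun t : ℝ => zt u t := by
    unfold zt
    fun_prop
  have hcd : Continuous fun t : ℝ => deriv (Φ c) (zt u t) * (((2 * Real.pi : ℝ) : ℂ) * I) := by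
    apply Continuous.mul _ continuous_const
    have h1 : ContinuousOn (deriv (Φ c)) U := (hΦd.deriv hUo).continuousOn
    exact h1.comp_continuous hzc hzU
  set J : Set ℝ := Icc ((θ + i) / d) ((θ + i + 1) / d) with hJ
  obtain ⟨M, hM⟩ := (isCompact_Icc : IsCompact J).exists_bound_of_continuousOn hcd.continuousOn
  have hM0 : 0 ≤ M := by
    have h1 : (θ + i) / d ∈ J := by
      rw [hJ]
      refine ⟨le_rfl, ?_⟩
      apply div_le_div_of_nonneg_right _ hd0.le
      linarith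
    exact (norm_nonneg _).trans (hM _ h1)
  -- the estimate
  set q : ℝ := 1 + δ / (2 * D) with hq
  have hq1 : 1 < q := by
    have : 0 < δ / (2 * D) := by positivity
    rw [hq]; linarith
  have hest : ∀ k : ℕ, ∀ a ∈ J, ∀ b ∈ J,
      ‖(g i)^[k] (p b) - (g i)^[k] (p a)‖ ≤ D * M / ρ / q ^ k * ‖b - a‖ := by
    intro k a ha b hb
    have hqk : 0 < q ^ k := by positivity
    have hit : DifferentiableOn ℂ ((g i)^[k]) W := hdiff.iterate hmaps k
    have hF : ∀ t ∈ J, HasDerivWithinAt (fun t : ℝ => (g i)^[k] (p t))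
        (deriv ((g i)^[k]) (p t) * (deriv (Φ c) (zt u t) * (((2 * Real.pi : ℝ) : ℂ) * I))) J t := by
      intro t _
      have h1 : HasDerivAt ((g i)^[k]) (deriv ((g i)^[k]) (p t)) (p t) :=
        (hit.differentiableAt (hWo.mem_nhds (hpW t))).hasDerivAt
      exact (HasDerivAt.comp (h₂ := (g i)^[k]) (h := p) t h1 (hpd t)).hasDerivWithinAt
    refine Convex.norm_image_sub_le_of_norm_hasDerivWithin_le hF ?_ (convex_Icc _ _) ha hb
    intro t ht
    have h1 := hEH (p t) (hpW t) ρ hρ (hpball t) k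
    have h2 : ‖deriv ((g i)^[k]) (p t)‖ ≤ D / ρ / q ^ k := by
      rw [le_div_iff₀ hqk, le_div_iff₀ hρ]
      calc ‖deriv ((g i)^[k]) (p t)‖ * q ^ k * ρ = ‖deriv ((g i)^[k]) (p t)‖ * ρ * q ^ k := by ring
        _ ≤ D := h1
    rw [norm_mul]
    calc ‖deriv ((g i)^[k]) (p t)‖ * ‖deriv (Φ c) (zt u t) * (((2 * Real.pi : ℝ) : ℂ) * I)‖
        ≤ (D / ρ / q ^ k) * M := mul_le_mul h2 (hM t ht) (norm_nonneg _) (by positivity)
      _ = D * M / ρ / q ^ k := by ring
  -- the points on the rays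
  have hX := steps (d := d) (g i) X (step hC hd hΦ hc hg i x X hx (fun k => (hcont k).1)
    (fun k s hs => (hray k s hs).1) (fun k s hs => ⟨(hgrn k s hs).1, (hgrn k s hs).2.2.1⟩))
  have hY := steps (d := d) (g i) Y (step hC hd hΦ hc hg i y Y hy (fun k => (hcont k).2)
    (fun k s hs => (hray k s hs).2) (fun k s hs => ⟨(hgrn k s hs).2.1, (hgrn k s hs).2.2.2⟩))
  have hbound : ∀ k : ℕ, ‖X 0 (u / (d : ℝ) ^ k) - Y 0 (u / (d : ℝ) ^ k)‖ ≤
      D * M / ρ * (1 / q) ^ k := by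
    intro k
    have hdk : (0 : ℝ) < (d : ℝ) ^ k := by positivity
    have hs0 : 0 ≤ u / (d : ℝ) ^ k := by positivity
    have he : (d : ℝ) ^ k * (u / (d : ℝ) ^ k) = u := by field_simp
    obtain ⟨m, hm1, hm2⟩ := hx k
    obtain ⟨m', hm1', hm2'⟩ := hy k
    have h1 : X 0 (u / (d : ℝ) ^ k) = (g i)^[k] (p ((d : ℝ) ^ k * x - m)) := by
      rw [← hX k _ hs0, he, (hray k u hu1).1, hp]
      simp only
      rw [← per_zt hΦ c hu3 ((d : ℝ) ^ k * x - m) m]
      congr 3
      ring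
    have h2 : Y 0 (u / (d : ℝ) ^ k) = (g i)^[k] (p ((d : ℝ) ^ k * y - m')) := by
      rw [← hY k _ hs0, he, (hray k u hu1).2, hp]
      simp only
      rw [← per_zt hΦ c hu3 ((d : ℝ) ^ k * y - m') m']
      congr 3
      ring
    rw [h1, h2]
    refine (hest k _ ⟨hm1'.le, hm2'.le⟩ _ ⟨hm1.le, hm2.le⟩).trans ?_
    have h3 : ‖((d : ℝ) ^ k * x - m) - ((d : ℝ) ^ k * y - m')‖ ≤ 1 := by
      have h4 : (θ + i + 1) / d = (θ + i) / d + 1 / d := by ring
      have h5 : (1 : ℝ) / d ≤ 1 := by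
        rw [div_le_one hd0]; linarith
      rw [Real.norm_eq_abs, abs_le]
      constructor <;> linarith
    calc D * M / ρ / q ^ k * ‖((d : ℝ) ^ k * x - m) - ((d : ℝ) ^ k * y - m')‖
        ≤ D * M / ρ / q ^ k * 1 := mul_le_mul_of_nonneg_left h3 (by positivity)
      _ = D * M / ρ * (1 / q) ^ k := by
          rw [one_div, inv_pow]
          ring
  -- the limit
  have hs : Tendsto (fun k : ℕ => u / (d : ℝ) ^ k) atTop (𝓝[Ici 0] 0) := by
    apply tendsto_nhdsWithin_of_tendsto_nhds_of_eventually_within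
    · exact (tendsto_pow_atTop_atTop_of_one_lt (by linarith)).const_div_atTop _
    · exact Eventually.of_forall fun k => by
        change 0 ≤ u / (d : ℝ) ^ k
        positivity
  have hX0 : Tendsto (fun k : ℕ => X 0 (u / (d : ℝ) ^ k)) atTop (𝓝 (X 0 0)) :=
    ((hcont 0).1 0 (by simp)).tendsto.comp hs
  have hY0 : Tendsto (fun k : ℕ => Y 0 (u / (d : ℝ) ^ k)) atTop (𝓝 (Y 0 0)) :=
    ((hcont 0).2 0 (by simp)).tendsto.comp hs
  have h0 : Tendsto (fun k : ℕ => X 0 (u / (d : ℝ) ^ k) - Y 0 (u / (d : ℝ) ^ k)) atTop (𝓝 0) := by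
    apply squeeze_zero_norm hbound
    have h1 : Tendsto (fun k : ℕ => (1 / q) ^ k) atTop (𝓝 0) := by
      apply tendsto_pow_atTop_nhds_zero_of_lt_one (by positivity)
      rw [div_lt_one (by linarith)]
      exact hq1
    simpa using h1.const_mul (D * M / ρ)
  have h1 := tendsto_nhds_unique h0 (hX0.sub hY0)
  exact (sub_eq_zero.mp h1.symm)

end Pool.Agent.Y288.LC.Col
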